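import Pool.Agent.Helper43.FV.Spec
import Pool.Agent.Helper43.RS.GeoC

/-!
# A group of automorphisms of a model extends to its Zariski closure
-/

namespace Pool.Agent.Helper43.FV

open Pool.Agent.Helper43.RS
open MvPolynomial

section Fams

variable {G K : Type} [Field K] [Algebra ℂ K] {H : Subalgebra ℂ (G → ℂ)}

theorem THK_gfin {ι : Type} [Fintype ι] (h : ι → G → ℂ) (k : ι → K) (hh : ∀ i, h i ∈ H)
    {P : G → K} (hP : ∀ g, P g = ∑ i, h i g • k i) : GFam H P := by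
  classical
  refine ⟨Fintype.card ι, fun i => h ((Fintype.equivFin ι).symm i),
    fun i => k ((Fintype.equivFin ι).symm i), fun i => hh _, fun g => ?_⟩
  rw [hP]
  exact ((Fintype.equivFin ι).symm.sum_comp fun i => h i g • k i).symm

theorem THK_gconst (k : K) : GFam H (fun _ : G => k) :=
  ⟨1, fun _ _ => 1, fun _ => k, fun _ => H.one_mem, fun g => by simp⟩

theorem THK_gadd {P Q : G → K} (hP : GFam H P) (hQ : GFam H Q) :
    GFam H (fun g => P g + Q g) := by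
  obtain ⟨n, h, k, h1, h2⟩ := hP
  obtain ⟨m, h', k', h1', h2'⟩ := hQ
  refine THK_gfin (ι := Fin n ⊕ Fin m) (Sum.elim h h') (Sum.elim k k') ?_ ?_
  · rintro (i | i)
    · exact h1 i
    · exact h1' i
  · intro g
    rw [Fintype.sum_sum_type, h2, h2']
    rfl

theorem THK_gmul {P Q : G → K} (hP : GFam H P) (hQ : GFam H Q) :
    GFam H (fun g => P g * Q g) := by
  obtain ⟨n, h, k, h1, h2⟩ := hP
  obtain ⟨m, h', k', h1', h2'⟩ := hQ
  refine THK_gfin (ι := Fin n × Fin m) (fun i => h i.1 * h' i.2) (fun i => k i.1 * k' i.2) ?_ ?_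
  · intro i
    exact H.mul_mem (h1 _) (h1' _)
  · intro g
    rw [h2, h2', Finset.sum_mul_sum, Fintype.sum_prod_type]
    refine Finset.sum_congr rfl fun i _ => Finset.sum_congr rfl fun j _ => ?_
    rw [Pi.mul_apply, smul_mul_smul_comm]

theorem THK_gmap (b : K →ₐ[ℂ] K) {P : G → K} (hP : GFam H P) : GFam H (fun g => b (P g)) := by
  obtain ⟨n, h, k, h1, h2⟩ := hP
  refine ⟨n, h, fun i => b (k i), h1, fun g => ?_⟩
  change b (P g) = ∑ i, h i g • b (k i)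
  rw [h2, map_sum]
  exact Finset.sum_congr rfl fun i _ => map_smul b _ _

theorem THK_gcomp {G' : Type} {H' : Subalgebra ℂ (G' → ℂ)} (s : G' → G)
    (hs : ∀ h ∈ H, (fun g => h (s g)) ∈ H') {P : G → K} (hP : GFam H P) :
    GFam H' (fun g => P (s g)) := by
  obtain ⟨n, h, k, h1, h2⟩ := hP
  exact ⟨n, fun i g => h i (s g), k, fun i => hs _ (h1 i), fun g => h2 _⟩

theorem THK_gdens {Γ : Set G} (hd : ∀ h ∈ H, (∀ γ ∈ Γ, h γ = 0) → ∀ w, h w = 0) {P : G → K}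
    (hP : GFam H P) (h0 : ∀ γ ∈ Γ, P γ = 0) (w : G) : P w = 0 := by
  obtain ⟨n, h, k, h1, h2⟩ := hP
  rw [← Module.forall_dual_apply_eq_zero_iff ℂ]
  intro l
  have h3 : ∀ g, l (P g) = ∑ i, l (k i) * h i g := by
    intro g
    rw [h2, map_sum]
    refine Finset.sum_congr rfl fun i _ => ?_
    rw [map_smul, smul_eq_mul, mul_comm]
  have h4 : (fun g => l (P g)) ∈ H := by
    have : (fun g => l (P g)) = ∑ i, l (k i) • h i := by
      ext g
      rw [h3]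
      simp
    rw [this]
    exact Subalgebra.sum_mem _ fun i _ => Subalgebra.smul_mem _ (h1 i) _
  exact hd _ h4 (fun γ hγ => by rw [h0 γ hγ, map_zero]) w

/-- families with nowhere vanishing denominators -/
def THK_R (H : Subalgebra ℂ (G → ℂ)) (F : G → K) : Prop :=
  ∃ N D : G → K, GFam H N ∧ GFam H D ∧ ∀ w, D w ≠ 0 ∧ F w = N w / D w

theorem THK_rg {P : G → K} (hP : GFam H P) : THK_R H P :=
  ⟨P, fun _ => 1, hP, THK_gconst 1, fun w => ⟨one_ne_zero, by simp⟩⟩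

theorem THK_rconst (k : K) : THK_R H (fun _ : G => k) := THK_rg (THK_gconst k)

theorem THK_radd {P Q : G → K} (hP : THK_R H P) (hQ : THK_R H Q) :
    THK_R H (fun g => P g + Q g) := by
  obtain ⟨N, D, h1, h2, h3⟩ := hP
  obtain ⟨N', D', h1', h2', h3'⟩ := hQ
  refine ⟨fun g => N g * D' g + D g * N' g, fun g => D g * D' g,
    THK_gadd (THK_gmul h1 h2') (THK_gmul h2 h1'), THK_gmul h2 h2', fun w => ⟨?_, ?_⟩⟩
  · exact mul_ne_zero (h3 w).1 (h3' w).1
  · change P w + Q w = (N w * D' w + D w * N' w) / (D w * D' w)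
    rw [(h3 w).2, (h3' w).2, div_add_div _ _ (h3 w).1 (h3' w).1]

theorem THK_rmul {P Q : G → K} (hP : THK_R H P) (hQ : THK_R H Q) :
    THK_R H (fun g => P g * Q g) := by
  obtain ⟨N, D, h1, h2, h3⟩ := hP
  obtain ⟨N', D', h1', h2', h3'⟩ := hQ
  refine ⟨fun g => N g * N' g, fun g => D g * D' g,
    THK_gmul h1 h1', THK_gmul h2 h2', fun w => ⟨?_, ?_⟩⟩
  · exact mul_ne_zero (h3 w).1 (h3' w).1
  · change P w * Q w = (N w * N' w) / (D w * D' w)
    rw [(h3 w).2, (h3' w).2, div_mul_div_comm]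

theorem THK_rinv {P : G → K} (hP : THK_R H P) (h0 : ∀ w, P w ≠ 0) :
    THK_R H (fun g => (P g)⁻¹) := by
  obtain ⟨N, D, h1, h2, h3⟩ := hP
  refine ⟨D, N, h2, h1, fun w => ⟨?_, ?_⟩⟩
  · intro h
    apply h0 w
    rw [(h3 w).2, h, zero_div]
  · change (P w)⁻¹ = D w / N w
    rw [(h3 w).2, inv_div]

theorem THK_rmap (b : K →ₐ[ℂ] K) {P : G → K} (hP : THK_R H P) :
    THK_R H (fun g => b (P g)) := by
  obtain ⟨N, D, h1, h2, h3⟩ := hP
  refine ⟨fun g => b (N g), fun g => b (D g), THK_gmap b h1, THK_gmap b h2, fun w => ⟨?_, ?_⟩⟩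
  · exact (map_ne_zero b).2 (h3 w).1
  · change b (P w) = b (N w) / b (D w)
    rw [(h3 w).2, map_div₀]

theorem THK_rcomp {G' : Type} {H' : Subalgebra ℂ (G' → ℂ)} (s : G' → G)
    (hs : ∀ h ∈ H, (fun g => h (s g)) ∈ H') {P : G → K} (hP : THK_R H P) :
    THK_R H' (fun g => P (s g)) := by
  obtain ⟨N, D, h1, h2, h3⟩ := hP
  exact ⟨fun g => N (s g), fun g => D (s g), THK_gcomp s hs h1, THK_gcomp s hs h2,
    fun w => h3 _⟩

theorem THK_rdens {Γ : Set G} (hd : ∀ h ∈ H, (∀ γ ∈ Γ, h γ = 0) → ∀ w, h w = 0) {P : G → K}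
    (hP : THK_R H P) (h0 : ∀ γ ∈ Γ, P γ = 0) (w : G) : P w = 0 := by
  obtain ⟨N, D, h1, h2, h3⟩ := hP
  have : N w = 0 := by
    refine THK_gdens hd h1 (fun γ hγ => ?_) w
    have h4 := h0 γ hγ
    rw [(h3 γ).2, div_eq_zero_iff] at h4
    exact h4.resolve_right (h3 γ).1
  rw [(h3 w).2, this, zero_div]

theorem THK_rdens' {Γ : Set G} (hd : ∀ h ∈ H, (∀ γ ∈ Γ, h γ = 0) → ∀ w, h w = 0) {P Q : G → K}
    (hP : THK_R H P) (hQ : THK_R H Q) (h0 : ∀ γ ∈ Γ, P γ = Q γ) (w : G) : P w = Q w := by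
  have h1 : THK_R H (fun g => P g + (-1) * Q g) := THK_radd hP (THK_rmul (THK_rconst _) hQ)
  have h2 := THK_rdens hd h1 (fun γ hγ => by rw [h0 γ hγ]; ring) w
  have h3 : P w - Q w = 0 := by rw [← h2]; ring
  exact sub_eq_zero.1 h3

theorem THK_raeval {r : ℕ} {u : Fin r → G → K} (hu : ∀ j, THK_R H (u j))
    (p : MvPolynomial (Fin r) ℂ) : THK_R H (fun g => aeval (fun j => u j g) p) := by
  induction p using MvPolynomial.induction_on with
  | C c =>
    have : (fun g => aeval (fun j => u j g) (C c : MvPolynomial (Fin r) ℂ)) =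
        fun _ => algebraMap ℂ K c := by
      funext g
      simp
    rw [this]
    exact THK_rconst _
  | add p q hp hq =>
    have : (fun g => aeval (fun j => u j g) (p + q)) =
        fun g => aeval (fun j => u j g) p + aeval (fun j => u j g) q := by
      funext g
      simp
    rw [this]
    exact THK_radd hp hq
  | mul_X p s hp =>
    have : (fun g => aeval (fun j => u j g) (p * X s)) =
        fun g => aeval (fun j => u j g) p * u s g := by
      funext g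
      simp
    rw [this]
    exact THK_rmul hp (hu s)

end Fams

section Ext

variable {G Δ K : Type} [Group G] [Group Δ] [Field K] [Algebra ℂ K] {H : Subalgebra ℂ (G → ℂ)}

/-- all the elements of the field move in rational families -/
theorem THK_fam (hH : HopfFun H) (ι : Δ →* G)
    (hd : ∀ h ∈ H, (∀ γ ∈ Set.range ι, h γ = 0) → ∀ w, h w = 0)
    (a : Δ →* (K ≃ₐ[ℂ] K)) {r : ℕ} (f : Fin r → K) (hf : FGen (Set.range f))
    (u : Fin r → G → K) (hu : ∀ j, THK_R H (u j)) (hua : ∀ j δ, u j (ι δ) = a δ (f j)) (x : K) :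
    ∃ F : G → K, THK_R H F ∧ ∀ δ, F (ι δ) = a δ x := by
  -- values at points of the dense subgroup
  have hev : ∀ (p : MvPolynomial (Fin r) ℂ) δ,
      aeval (fun j => u j (ι δ)) p = a δ (aeval f p) := by
    intro p δ
    have h1 : (fun j => u j (ι δ)) = fun j => (a δ : K →ₐ[ℂ] K) (f j) :=
      funext fun j => hua j δ
    rw [h1, ← comp_aeval_apply]
    rfl
  -- left translations by the dense subgroup
  have htr : ∀ δ w j, u j (ι δ * w) = a δ (u j w) := by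
    intro δ w j
    refine THK_rdens' hd (THK_rcomp (fun w => ι δ * w)
      (fun h hh => hopf_trans_left hH hh (ι δ)) (hu j)) (THK_rmap (a δ : K →ₐ[ℂ] K) (hu j)) ?_ w
    rintro _ ⟨γ, rfl⟩
    change u j (ι δ * ι γ) = a δ (u j (ι γ))
    rw [← map_mul, hua, hua, map_mul]
    rfl
  have htr' : ∀ (p : MvPolynomial (Fin r) ℂ) δ w,
      aeval (fun j => u j (ι δ * w)) p = a δ (aeval (fun j => u j w) p) := by
    intro p δ w
    have h1 : (fun j => u j (ι δ * w)) = fun j => (a δ : K →ₐ[ℂ] K) (u j w) :=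
      funext fun j => htr δ w j
    rw [h1, ← comp_aeval_apply]
    rfl
  have hne : ∀ q : MvPolynomial (Fin r) ℂ, aeval f q ≠ 0 → ∀ w,
      aeval (fun j => u j w) q ≠ 0 := by
    intro q hq w₀ h0
    apply hq
    have h1 : THK_R H (fun w => aeval (fun j => u j (w * w₀)) q) :=
      THK_rcomp (fun w => w * w₀) (fun h hh => hopf_trans_right hH hh w₀) (THK_raeval hu q)
    have h2 := THK_rdens hd h1 (by
      rintro _ ⟨γ, rfl⟩
      rw [htr', h0, map_zero]) w₀⁻¹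
    simp only [inv_mul_cancel] at h2
    have h3 := hev q 1
    rw [map_one, map_one, h2] at h3
    exact h3.symm
  obtain ⟨p, q, hx⟩ := (IntermediateField.mem_adjoin_range_iff ℂ f x).1 (by
    have : IntermediateField.adjoin ℂ (Set.range f) = ⊤ := hf
    rw [this]
    exact IntermediateField.mem_top)
  by_cases hq : aeval f q = 0
  · refine ⟨fun _ => 0, THK_rconst 0, fun δ => ?_⟩
    rw [hx, hq, div_zero, map_zero]
  · refine ⟨fun w => aeval (fun j => u j w) p * (aeval (fun j => u j w) q)⁻¹,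
      THK_rmul (THK_raeval hu p) (THK_rinv (THK_raeval hu q) (hne q hq)), fun δ => ?_⟩
    change aeval (fun j => u j (ι δ)) p * (aeval (fun j => u j (ι δ)) q)⁻¹ = _
    rw [hev, hev, hx, map_div₀, div_eq_mul_inv]

/-- the extension of the homomorphism -/
theorem THK_ext (hH : HopfFun H) (ι : Δ →* G)
    (hd : ∀ h ∈ H, (∀ γ ∈ Set.range ι, h γ = 0) → ∀ w, h w = 0)
    (a : Δ →* (K ≃ₐ[ℂ] K)) {r : ℕ} (f : Fin r → K) (hf : FGen (Set.range f))
    (u : Fin r → G → K) (hu : ∀ j, THK_R H (u j)) (hua : ∀ j δ, u j (ι δ) = a δ (f j)) :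
    ∃ a' : G →* (K ≃ₐ[ℂ] K), (∀ x, THK_R H (fun w => a' w x)) ∧ ∀ δ, a' (ι δ) = a δ := by
  choose F hF1 hF2 using THK_fam hH ι hd a f hf u hu hua
  have hadd : ∀ x y w, F (x + y) w = F x w + F y w := by
    intro x y w
    refine THK_rdens' hd (hF1 _) (THK_radd (hF1 x) (hF1 y)) ?_ w
    rintro _ ⟨γ, rfl⟩
    rw [hF2, hF2, hF2, map_add]
  have hmul : ∀ x y w, F (x * y) w = F x w * F y w := by
    intro x y w
    refine THK_rdens' hd (hF1 _) (THK_rmul (hF1 x) (hF1 y)) ?_ w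
    rintro _ ⟨γ, rfl⟩
    rw [hF2, hF2, hF2, map_mul]
  have halg : ∀ (c : ℂ) w, F (algebraMap ℂ K c) w = algebraMap ℂ K c := by
    intro c w
    refine THK_rdens' hd (hF1 _) (THK_rconst _) ?_ w
    rintro _ ⟨γ, rfl⟩
    rw [hF2, AlgEquiv.commutes]
  have htr : ∀ δ w x, F x (ι δ * w) = a δ (F x w) := by
    intro δ w x
    refine THK_rdens' hd (THK_rcomp (fun w => ι δ * w)
      (fun h hh => hopf_trans_left hH hh (ι δ)) (hF1 x)) (THK_rmap (a δ : K →ₐ[ℂ] K) (hF1 x)) ?_ w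
    rintro _ ⟨γ, rfl⟩
    change F x (ι δ * ι γ) = a δ (F x (ι γ))
    rw [← map_mul, hF2, hF2, map_mul]
    rfl
  have hcomp : ∀ w' w x, F x (w' * w) = F (F x w) w' := by
    intro w' w x
    refine THK_rdens' hd (THK_rcomp (fun w' => w' * w)
      (fun h hh => hopf_trans_right hH hh w) (hF1 x)) (hF1 (F x w)) ?_ w'
    rintro _ ⟨γ, rfl⟩
    rw [htr, hF2]
  have hone : ∀ x, F x 1 = x := by
    intro x
    have := hF2 x 1
    rw [map_one, map_one] at this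
    exact this
  let E : G → (K →ₐ[ℂ] K) := fun w =>
    { toFun := fun x => F x w
      map_one' := by simpa using halg 1 w
      map_mul' := fun x y => hmul x y w
      map_zero' := by simpa using halg 0 w
      map_add' := fun x y => hadd x y w
      commutes' := fun c => halg c w }
  let a' : G →* (K ≃ₐ[ℂ] K) :=
    { toFun := fun w => AlgEquiv.ofAlgHom (E w) (E w⁻¹)
        (by
          ext x
          change F (F x w⁻¹) w = x
          rw [← hcomp, mul_inv_cancel, hone])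
        (by
          ext x
          change F (F x w) w⁻¹ = x
          rw [← hcomp, inv_mul_cancel, hone])
      map_one' := by
        ext x
        exact hone x
      map_mul' := by
        intro w w'
        ext x
        exact hcomp w w' x }
  refine ⟨a', hF1, fun δ => ?_⟩
  ext x
  exact hF2 x δ

end Ext

section Dom

variable {K : Type} [Field K] [Algebra ℂ K]

/-- the residue map of a local ring -/
theorem THK_ev (R : Subalgebra ℂ K) (φ : R →ₐ[ℂ] ℂ) :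
    ∃ e : locAt R φ →ₐ[ℂ] ℂ, ∀ x : locAt R φ, e x ≠ 0 → (x : K) ≠ 0 ∧ (x : K)⁻¹ ∈ locAt R φ := by
  have hwd : ∀ (x : K) (p q p' q' : R), φ q ≠ 0 → φ q' ≠ 0 → x * q = p → x * q' = p' →
      φ p / φ q = φ p' / φ q' := by
    intro x p q p' q' hq hq' h h'
    have h1 : p * q' = p' * q := by
      apply Subtype.ext
      push_cast
      rw [← h, ← h']
      ring
    rw [div_eq_div_iff hq hq', ← map_mul, ← map_mul, h1]
  choose P Q hQ hPQ using fun x : locAt R φ => mem_locAt.1 x.2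
  have hval : ∀ (x : locAt R φ) (p q : R), φ q ≠ 0 → (x : K) * q = p →
      φ (P x) / φ (Q x) = φ p / φ q := fun x p q hq h =>
    hwd x _ _ _ _ (hQ x) hq (hPQ x) h
  let e : locAt R φ →ₐ[ℂ] ℂ :=
    { toFun := fun x => φ (P x) / φ (Q x)
      map_one' := by
        rw [hval 1 1 1 (by simp) (by simp)]
        simp
      map_mul' := by
        intro x y
        rw [hval (x * y) (P x * P y) (Q x * Q y)
          (by rw [map_mul]; exact mul_ne_zero (hQ x) (hQ y))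
          (by push_cast; rw [← hPQ x, ← hPQ y]; ring)]
        rw [map_mul, map_mul, div_mul_div_comm]
      map_zero' := by
        rw [hval 0 0 1 (by simp) (by simp)]
        simp
      map_add' := by
        intro x y
        rw [hval (x + y) (P x * Q y + Q x * P y) (Q x * Q y)
          (by rw [map_mul]; exact mul_ne_zero (hQ x) (hQ y))
          (by push_cast; rw [← hPQ x, ← hPQ y]; ring)]
        rw [map_add, map_mul, map_mul, map_mul, div_add_div _ _ (hQ x) (hQ y)]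
      commutes' := by
        intro c
        rw [hval (algebraMap ℂ _ c) (algebraMap ℂ R c) 1 (by simp) (by simp)]
        simp }
  refine ⟨e, fun x hx => ?_⟩
  have hx' : φ (P x) / φ (Q x) ≠ 0 := hx
  have hP : φ (P x) ≠ 0 := fun h => hx' (by rw [h, zero_div])
  have hx0 : (x : K) ≠ 0 := by
    intro h0
    have h1 := hPQ x
    rw [h0, zero_mul] at h1
    apply hP
    have : P x = 0 := Subtype.ext h1.symm
    rw [this, map_zero]
  refine ⟨hx0, Q x, P x, hP, ?_⟩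
  rw [← hPQ x]
  field_simp

/-- a local ring dominating the image of a chart -/
theorem THK_dom {R R' : Subalgebra ℂ K} (φ : R →ₐ[ℂ] ℂ) (b : K ≃ₐ[ℂ] K)
    (hb : ∀ x ∈ R', b x ∈ locAt R φ) : ∃ ψ : R' →ₐ[ℂ] ℂ, ∀ x ∈ locAt R' ψ, b x ∈ locAt R φ := by
  obtain ⟨e, he⟩ := THK_ev R φ
  refine ⟨e.comp ((((b : K →ₐ[ℂ] K).comp R'.val)).codRestrict (locAt R φ)
    (fun x => hb x x.2)), ?_⟩
  rintro x ⟨p, q, hq, hx⟩
  obtain ⟨h1, h2⟩ := he _ hq
  have h1' : b (q : K) ≠ 0 := h1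
  have h2' : (b (q : K))⁻¹ ∈ locAt R φ := h2
  have h3 : b x = b p * (b (q : K))⁻¹ := by
    rw [← hx, map_mul]
    field_simp
  rw [h3]
  exact (locAt R φ).mul_mem (hb p p.2) h2'

variable {X : Set (Subalgebra ℂ K)}

theorem THK_pres (hX : IsModel X) {n : ℕ} {R : Fin n → Subalgebra ℂ K}
    (hXR : ∀ O, O ∈ X ↔ ∃ i, ∃ φ : R i →ₐ[ℂ] ℂ, O = locAt (R i) φ) (b : K ≃ₐ[ℂ] K)
    (h1 : ∀ O ∈ X, ∃ i, ∀ x ∈ R i, b x ∈ O) (h2 : ∀ O ∈ X, ∃ i, ∀ x ∈ R i, b.symm x ∈ O) :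
    Pres X b := by
  have key : ∀ c : K ≃ₐ[ℂ] K, (∀ O ∈ X, ∃ i, ∀ x ∈ R i, c x ∈ O) →
      ∀ O ∈ X, ∃ Q ∈ X, ∀ x ∈ Q, c x ∈ O := by
    intro c hc O hO
    obtain ⟨i, hi⟩ := hc O hO
    obtain ⟨j, φ, rfl⟩ := (hXR O).1 hO
    obtain ⟨ψ, hψ⟩ := THK_dom φ c hi
    exact ⟨locAt (R i) ψ, (hXR _).2 ⟨i, ψ, rfl⟩, hψ⟩
  refine ⟨fun O hO => ?_, fun O' hO' => ?_⟩
  · obtain ⟨Q, hQ, h3⟩ := key b.symm h2 O hO
    obtain ⟨O', hO', h4⟩ := key b h1 Q hQ
    have h5 : O' = O := hX.sep O' hO' O hO fun x hx => by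
      have := h3 _ (h4 x hx)
      rwa [AlgEquiv.symm_apply_apply] at this
    refine ⟨Q, hQ, fun f => ⟨fun hf => h4 f (by rw [h5]; exact hf), fun hf => ?_⟩⟩
    have := h3 _ hf
    rwa [AlgEquiv.symm_apply_apply] at this
  · obtain ⟨O, hO, h3⟩ := key b h1 O' hO'
    obtain ⟨Q, hQ, h4⟩ := key b.symm h2 O hO
    have h5 : Q = O' := hX.sep Q hQ O' hO' fun x hx => by
      have := h3 _ (h4 x hx)
      rwa [AlgEquiv.apply_symm_apply] at this
    refine ⟨O, hO, fun f => ⟨fun hf => h3 f hf, fun hf => ?_⟩⟩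
    have := h4 (b f) (by rw [h5]; exact hf)
    rwa [AlgEquiv.symm_apply_apply] at this

theorem THK_pres_mul {a b : K ≃ₐ[ℂ] K} (ha : Pres X a) (hb : Pres X b) :
    Pres X ((a * b : K ≃ₐ[ℂ] K) : K → K) := by
  refine ⟨fun O hO => ?_, fun O hO => ?_⟩
  · obtain ⟨O₁, hO₁, h1⟩ := hb.1 O hO
    obtain ⟨O₂, hO₂, h2⟩ := ha.1 O₁ hO₁
    exact ⟨O₂, hO₂, fun f => (h1 f).trans (h2 _)⟩
  · obtain ⟨O₁, hO₁, h1⟩ := ha.2 O hO
    obtain ⟨O₂, hO₂, h2⟩ := hb.2 O₁ hO₁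
    exact ⟨O₂, hO₂, fun f => (h2 f).trans (h1 _)⟩

theorem THK_pres_inv {a : K ≃ₐ[ℂ] K} (ha : Pres X a) :
    Pres X ((a⁻¹ : K ≃ₐ[ℂ] K) : K → K) := by
  refine ⟨fun O hO => ?_, fun O hO => ?_⟩
  · obtain ⟨O₁, hO₁, h1⟩ := ha.2 O hO
    refine ⟨O₁, hO₁, fun f => ?_⟩
    rw [h1]
    change f ∈ O ↔ a (a.symm f) ∈ O
    rw [AlgEquiv.apply_symm_apply]
  · obtain ⟨O₁, hO₁, h1⟩ := ha.1 O hO
    refine ⟨O₁, hO₁, fun f => ?_⟩
    rw [h1]
    change f ∈ O₁ ↔ a (a.symm f) ∈ O₁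
    rw [AlgEquiv.apply_symm_apply]

end Dom

section Open

variable {G K : Type} [Field K] [Algebra ℂ K] {H : Subalgebra ℂ (G → ℂ)}

/-- evaluation at a point where the annihilated function does not vanish -/
theorem THK_pt {P : Ideal H} {e : H} (he : ∀ s : H, s ∈ P ↔ s * e = 0) (w : G)
    (hw : (e : G → ℂ) w ≠ 0) :
    ∃ z : (H ⧸ P) →ₐ[ℂ] ℂ, ∀ s : H, z (Ideal.Quotient.mk P s) = (s : G → ℂ) w := by
  refine ⟨Ideal.Quotient.liftₐ P ((Pi.evalAlgHom ℂ (fun _ : G => ℂ) w).comp H.val) ?_, ?_⟩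
  · intro s hs
    have h1 : (s : G → ℂ) * (e : G → ℂ) = 0 := congrArg Subtype.val ((he s).1 hs)
    have h2 := congrFun h1 w
    exact (mul_eq_zero.1 h2).resolve_right hw
  · intro s
    rfl

theorem THK_toFam {P : Ideal H} {F : G → K} (hF : GFam H F) :
    ∃ F' : ((H ⧸ P) →ₐ[ℂ] ℂ) → K, Fam (S := H ⧸ P) F' ∧ ∀ w (z : (H ⧸ P) →ₐ[ℂ] ℂ),
      (∀ s : H, z (Ideal.Quotient.mk P s) = (s : G → ℂ) w) → F' z = F w := by
  obtain ⟨n, h, k, h1, h2⟩ := hF
  refine ⟨fun z => ∑ i, z (Ideal.Quotient.mk P ⟨h i, h1 i⟩) • k i,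
    ⟨n, fun i => Ideal.Quotient.mk P ⟨h i, h1 i⟩, k, fun z => rfl⟩, fun w z hz => ?_⟩
  rw [h2]
  exact Finset.sum_congr rfl fun i _ => by rw [hz]

theorem THK_open (hREG : ST_REGOPEN) [Algebra.FiniteType ℂ H] {P : Ideal H} (hP : P.IsPrime)
    {e : H} (he : ∀ s : H, s ∈ P ↔ s * e = 0) {Γ : Set G}
    (hd : ∀ h ∈ H, (∀ γ ∈ Γ, h γ = 0) → ∀ w, h w = 0) {n m : ℕ} (R : Fin n → Subalgebra ℂ K)
    (hR : ∀ i, IsChart (R i)) (F : Fin n → Fin m → G → K) (hF : ∀ i k, THK_R H (F i k))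
    (hΓ : ∀ γ ∈ Γ, ∀ j, ∀ φ : R j →ₐ[ℂ] ℂ, ∃ i, ∀ k, F i k γ ∈ locAt (R j) φ) :
    ∃ g : H, g ∉ P ∧ ∀ w, (e : G → ℂ) w ≠ 0 → (g : G → ℂ) w ≠ 0 →
      ∀ j, ∀ φ : R j →ₐ[ℂ] ℂ, ∃ i, ∀ k, F i k w ∈ locAt (R j) φ := by
  have hdom : IsDomain (H ⧸ P) := Ideal.Quotient.isDomain P
  choose N D hN hD hND using hF
  choose N' hN' hNN' using fun i k => THK_toFam (P := P) (hN i k)
  choose D' hD' hDD' using fun i k => THK_toFam (P := P) (hD i k)
  set Γ' : Set ((H ⧸ P) →ₐ[ℂ] ℂ) := {z | ∃ γ ∈ Γ, (e : G → ℂ) γ ≠ 0 ∧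
    ∀ s : H, z (Ideal.Quotient.mk P s) = (s : G → ℂ) γ} with hΓ'
  have hdense : DensePts (S := H ⧸ P) Γ' := by
    intro s hs
    obtain ⟨s, rfl⟩ := Ideal.Quotient.mk_surjective s
    rw [Ideal.Quotient.eq_zero_iff_mem, he]
    apply Subtype.ext
    funext w
    refine hd ((s * e : H) : G → ℂ) (s * e : H).2 (fun γ hγ => ?_) w
    change (s : G → ℂ) γ * (e : G → ℂ) γ = 0
    by_cases h0 : (e : G → ℂ) γ = 0
    · rw [h0, mul_zero]
    · obtain ⟨z, hz⟩ := THK_pt he γ h0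
      rw [← hz s, hs z ⟨γ, hγ, h0, hz⟩, zero_mul]
  obtain ⟨g, hg, hgz⟩ := hREG K n m R hR (H ⧸ P) Γ' hdense N' D' hN' hD' (by
    rintro z ⟨γ, hγ, -, hz⟩ j φ
    obtain ⟨i, hi⟩ := hΓ γ hγ j φ
    refine ⟨i, fun k => ?_⟩
    rw [hNN' i k γ z hz, hDD' i k γ z hz]
    refine ⟨(hND i k γ).1, ?_⟩
    rw [← (hND i k γ).2]
    exact hi k)
  obtain ⟨g, rfl⟩ := Ideal.Quotient.mk_surjective g
  refine ⟨g, fun h => hg (Ideal.Quotient.eq_zero_iff_mem.2 h), fun w hw hgw j φ => ?_⟩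
  obtain ⟨z, hz⟩ := THK_pt he w hw
  obtain ⟨i, hi⟩ := hgz z (by rw [hz]; exact hgw) j φ
  refine ⟨i, fun k => ?_⟩
  have := (hi k).2
  rw [hNN' i k w z hz, hDD' i k w z hz] at this
  rw [(hND i k w).2]
  exact this

end Open

theorem THK_gens {K : Type} [Field K] [Algebra ℂ K] {n : ℕ} (R : Fin n → Subalgebra ℂ K)
    (hR : ∀ i, IsChart (R i)) : ∃ (m : ℕ) (g : Fin n → Fin m → K),
      ∀ i, R i = Algebra.adjoin ℂ (Set.range (g i)) := by
  classical
  choose t ht using fun i => (hR i).fg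
  set m := Finset.univ.sup fun i => (t i).card with hm
  have hle : ∀ i, (t i).card ≤ m := fun i =>
    Finset.le_sup (f := fun i => (t i).card) (Finset.mem_univ i)
  refine ⟨m, fun i k => if h : (k : ℕ) < (t i).card then ((t i).equivFin.symm ⟨k, h⟩ : K) else 0,
    fun i => ?_⟩
  rw [← ht i]
  apply le_antisymm
  · apply Algebra.adjoin_mono
    intro x hx
    refine ⟨⟨(t i).equivFin ⟨x, hx⟩, lt_of_lt_of_le (Fin.is_lt _) (hle i)⟩, ?_⟩
    simp
  · rw [Algebra.adjoin_le_iff]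
    rintro _ ⟨k, rfl⟩
    simp only
    split_ifs with h
    · exact Algebra.subset_adjoin ((t i).equivFin.symm ⟨k, h⟩).2
    · exact Subalgebra.zero_mem _

theorem st_THK (hREG : ST_REGOPEN) : ST_THK := by
  intro K _ _ X hX N W Γ hW hΓ hdens a ha r f hf P Q hP hQ hQ0 hPQ
  classical
  have hopf : HopfFun (groupFun W) := hopf_groupFun W
  let ι : Γ →* W := Subgroup.inclusion hΓ
  have hd : ∀ h ∈ groupFun W, (∀ γ ∈ Set.range ι, h γ = 0) → ∀ w, h w = 0 := by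
    intro h hh h0 w
    obtain ⟨p, hp⟩ := mem_groupFun.1 hh
    rw [hp]
    refine hdens p (fun γ hγ => ?_) w w.2
    have := h0 (ι ⟨γ, hγ⟩) ⟨_, rfl⟩
    rw [hp] at this
    exact this
  obtain ⟨a', h1, h2⟩ := THK_ext hopf ι hd a f hf (fun j w => P j w / Q j w)
    (fun j => ⟨P j, Q j, hP j, hQ j, fun w => ⟨hQ0 j w, rfl⟩⟩) (by
      intro j δ
      rw [div_eq_iff (hQ0 j _), mul_comm]
      exact (hPQ j δ).symm)
  have hPQ' : ∀ j w, Q j w * a' w (f j) = P j w := by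
    intro j w
    refine THK_rdens' hd (THK_rmul (THK_rg (hQ j)) (h1 (f j))) (THK_rg (hP j)) ?_ w
    rintro _ ⟨γ, rfl⟩
    rw [h2]
    exact hPQ j γ
  -- an irreducible open subset
  have hft : Algebra.FiniteType ℂ (groupFun W) :=
    Algebra.FiniteType.of_surjective (AlgHom.rangeRestrict _) (AlgHom.rangeRestrict_surjective _)
  have hnoeth : IsNoetherianRing (groupFun W) := Algebra.FiniteType.isNoetherianRing ℂ _
  have hnt : Nontrivial (groupFun W) := by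
    refine ⟨0, 1, fun h => ?_⟩
    have := congrFun (congrArg Subtype.val h) (1 : W)
    exact zero_ne_one this
  obtain ⟨𝔭, h𝔭⟩ := associatedPrimes.nonempty (groupFun W) (groupFun W)
  obtain ⟨hprime, e, he⟩ := isAssociatedPrime_iff.1 h𝔭
  have he' : ∀ s : groupFun W, s ∈ 𝔭 ↔ s * e = 0 := by
    intro s
    rw [he, Submodule.mem_colon_singleton]
    simp
  -- charts
  obtain ⟨n, R, hn, hR, hXR⟩ := hX.charts
  obtain ⟨m, g, hg⟩ := THK_gens R hR
  have hsub : ∀ i (ψ : R i →ₐ[ℂ] ℂ) k, g i k ∈ locAt (R i) ψ := by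
    intro i ψ k
    have h3 : g i k ∈ R i := by
      rw [hg i]
      exact Algebra.subset_adjoin ⟨k, rfl⟩
    exact ⟨⟨g i k, h3⟩, 1, by simp, by simp⟩
  have hgen : ∀ (b : K ≃ₐ[ℂ] K) i (O : Subalgebra ℂ K), (∀ k, b (g i k) ∈ O) →
      ∀ x ∈ R i, b x ∈ O := by
    intro b i O hO
    have h3 : R i ≤ O.comap (b : K →ₐ[ℂ] K) := by
      rw [hg i, Algebra.adjoin_le_iff]
      rintro _ ⟨k, rfl⟩
      exact hO k
    exact fun x hx => h3 hx
  have hpt : ∀ b : K ≃ₐ[ℂ] K, Pres X b → ∀ j, ∀ φ : R j →ₐ[ℂ] ℂ, ∃ i, ∀ k,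
      b (g i k) ∈ locAt (R j) φ := by
    intro b hb j φ
    obtain ⟨O, hO, h3⟩ := hb.2 (locAt (R j) φ) ((hXR _).2 ⟨j, φ, rfl⟩)
    obtain ⟨i, ψ, rfl⟩ := (hXR O).1 hO
    exact ⟨i, fun k => (h3 _).1 (hsub i ψ k)⟩
  obtain ⟨g1, hg1, hg1'⟩ := THK_open hREG hprime he' hd R hR (fun i k w => a' w (g i k))
    (fun i k => h1 _) (by
      rintro _ ⟨γ, rfl⟩ j φ
      rw [h2]
      exact hpt (a γ) (ha γ) j φ)
  obtain ⟨g2, hg2, hg2'⟩ := THK_open hREG hprime he' hd R hR (fun i k w => a' w⁻¹ (g i k))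
    (fun i k => THK_rcomp (fun w => w⁻¹) hopf.inv (h1 _)) (by
      rintro _ ⟨γ, rfl⟩ j φ
      rw [map_inv, h2]
      exact hpt _ (THK_pres_inv (ha γ)) j φ)
  -- the open set
  set s : groupFun W := g1 * g2 * e with hs
  have hs0 : s ≠ 0 := by
    intro h0
    rw [hs, ← he'] at h0
    rcases hprime.mem_or_mem h0 with h | h
    · exact hg1 h
    · exact hg2 h
  obtain ⟨ω₀, hω₀⟩ : ∃ w, (s : W → ℂ) w ≠ 0 := by
    by_contra hcon
    push Not at hcon
    exact hs0 (Subtype.ext (funext hcon))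
  have hΩ : ∀ w, (s : W → ℂ) w ≠ 0 → Pres X (a' w) := by
    intro w hw
    have hw' : (g1 : W → ℂ) w * (g2 : W → ℂ) w * (e : W → ℂ) w ≠ 0 := hw
    have hew : (e : W → ℂ) w ≠ 0 := right_ne_zero_of_mul hw'
    have hg1w : (g1 : W → ℂ) w ≠ 0 := left_ne_zero_of_mul (left_ne_zero_of_mul hw')
    have hg2w : (g2 : W → ℂ) w ≠ 0 := right_ne_zero_of_mul (left_ne_zero_of_mul hw')
    refine THK_pres hX hXR (a' w) ?_ ?_
    · intro O hO
      obtain ⟨j, φ, rfl⟩ := (hXR O).1 hO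
      obtain ⟨i, hi⟩ := hg1' w hew hg1w j φ
      exact ⟨i, hgen (a' w) i _ hi⟩
    · intro O hO
      obtain ⟨j, φ, rfl⟩ := (hXR O).1 hO
      obtain ⟨i, hi⟩ := hg2' w hew hg2w j φ
      refine ⟨i, ?_⟩
      have h3 : (a' w).symm = a' w⁻¹ := by
        rw [map_inv]
        rfl
      rw [h3]
      exact hgen (a' w⁻¹) i _ hi
  have hall : ∀ w, Pres X (a' w) := by
    intro w₀
    by_contra hcon
    have h3 : ∀ w, (s : W → ℂ) (w₀⁻¹ * w) = 0 := by
      refine hd (fun w => (s : W → ℂ) (w₀⁻¹ * w)) (hopf_trans_left hopf s.2 w₀⁻¹) ?_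
      rintro _ ⟨γ, rfl⟩
      by_contra h0
      apply hcon
      have h4 := THK_pres_inv (hΩ _ h0)
      have h5 : Pres X (a' (ι γ)) := by
        rw [h2]
        exact ha γ
      have h6 := THK_pres_mul h5 h4
      rw [← map_inv, ← map_mul] at h6
      have h7 : ι γ * (w₀⁻¹ * ι γ)⁻¹ = w₀ := by group
      rw [h7] at h6
      exact h6
    have h4 := h3 (w₀ * ω₀)
    rw [inv_mul_cancel_left] at h4
    exact hω₀ h4
  refine ⟨a', hall, hPQ', fun γ => h2 γ, fun b hb w => ?_⟩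
  ext x
  change b (a' w x) = a' w (b x)
  refine THK_rdens' hd (THK_rmap (b : K →ₐ[ℂ] K) (h1 x)) (h1 (b x)) ?_ w
  rintro _ ⟨γ, rfl⟩
  change b (a' (ι γ) x) = a' (ι γ) (b x)
  rw [h2]
  exact congrArg (fun c : K ≃ₐ[ℂ] K => c x) (hb γ)

end Pool.Agent.Helper43.FV
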